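import Pool.Agent.Lib.MP_fcd94d_an_KR.Defs

/-!
# MP_fcd94d_an: entire actions of the additive group and functions of weight one
-/

namespace Pool.Agent.MP_fcd94d_an.SL

open Pool.Agent.MP_fcd94d_an.KR

section
variable {Z : Type} [NormedAddCommGroup Z] [NormedSpace ℂ Z]

/-- `φ` is an entire action of the additive group `ℂ` on `Z` -/
structure Flow (φ : ℂ × Z → Z) : Prop where
  entire : Entire φ
  zero : ∀ z, φ (0, z) = z
  add : ∀ s t z, φ (s + t, z) = φ (s, φ (t, z))

/-- the function `b` is entire and `b (φ (t, z)) = exp t * b z` -/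
def WeightOne (φ : ℂ × Z → Z) (b : Z → ℂ) : Prop :=
  Entire b ∧ ∀ t z, b (φ (t, z)) = Complex.exp t * b z

/-- the function `x * b z + d z - 1` of `p = (x, z)` -/
def linEq (b d : Z → ℂ) (p : ℂ × Z) : ℂ := p.1 * b p.2 + d p.2 - 1

end

/-- the function `det z - 1` of the `m × m` matrix `z` -/
def detEq (m : ℕ) (z : Fin m → Fin m → ℂ) : ℂ := (Matrix.of z).det - 1

end Pool.Agent.MP_fcd94d_an.SL
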