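import Mathlib
import Pool.Agent.Lib.MP_fcd94d_an_SL.Defs

/-!
# MP_fcd94d_an: immersions of the hypersurfaces `x * b z + d z = 1`, `b` and `d` of weight one
-/

namespace Pool.Agent.MP_fcd94d_an.SL

open Pool.Agent.MP_fcd94d_an.KR

/-! ### The function `h` -/

theorem differentiable_dslope {f : ℂ → ℂ} (hf : Differentiable ℂ f) (c : ℂ) :
    Differentiable ℂ (dslope f c) := by
  have h := (Complex.differentiableOn_dslope (f := f) (c := c) (s := Set.univ)
    Filter.univ_mem).mpr hf.differentiableOn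
  exact differentiableOn_univ.mp h

theorem exists_h : ∃ h h' : ℂ → ℂ, (∀ s, HasDerivAt h (h' s) s) ∧
    ∀ s, s ^ 2 * h' s = Complex.exp s - 1 - s := by
  have h1 : Differentiable ℂ (fun s : ℂ => Complex.exp s - 1 - s) := by fun_prop
  set g1 : ℂ → ℂ := dslope (fun s : ℂ => Complex.exp s - 1 - s) 0 with hg1
  have hg1d : Differentiable ℂ g1 := differentiable_dslope h1 0
  have e1 : ∀ s, s * g1 s = Complex.exp s - 1 - s := by
    intro s
    have h := sub_smul_dslope (fun s : ℂ => Complex.exp s - 1 - s) 0 s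
    simpa [hg1] using h
  have e0 : g1 0 = 0 := by
    rw [hg1, dslope_same]
    have h2 : HasDerivAt (fun s : ℂ => Complex.exp s - 1 - s) (Complex.exp 0 - 1) 0 :=
      ((Complex.hasDerivAt_exp 0).sub_const 1).sub (hasDerivAt_id 0)
    rw [h2.deriv, Complex.exp_zero, sub_self]
  have e2 : ∀ s, s * dslope g1 0 s = g1 s := by
    intro s
    have h := sub_smul_dslope g1 0 s
    rw [e0, sub_zero, sub_zero] at h
    exact h
  obtain ⟨h, hh⟩ := (differentiable_dslope hg1d 0).isExactOn_univ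
  refine ⟨h, dslope g1 0, fun s => hh s (Set.mem_univ s), fun s => ?_⟩
  rw [← e1 s, ← e2 s]
  ring

section
variable {Z : Type} [NormedAddCommGroup Z] [NormedSpace ℂ Z]

/-- the vector field of the action -/
noncomputable def vf (φ : ℂ × Z → Z) (z : Z) : Z := fderiv ℂ φ (0, z) (1, 0)

theorem hasDerivAt_slice {φ : ℂ × Z → Z} (hφ : Flow φ) (t : ℂ) (w : Z) :
    HasDerivAt (fun s => φ (s, w)) (fderiv ℂ φ (t, w) (1, 0)) t := by
  have h1 : HasFDerivAt φ (fderiv ℂ φ (t, w)) (t, w) := (hφ.entire (t, w)).hasFDerivAt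
  have h2 : HasDerivAt (fun s : ℂ => (s, w)) ((1 : ℂ), (0 : Z)) t :=
    (hasDerivAt_id t).prodMk (hasDerivAt_const t w)
  exact h1.comp_hasDerivAt t h2

theorem fderiv_slice {φ : ℂ × Z → Z} (hφ : Flow φ) (t : ℂ) (w : Z) :
    fderiv ℂ φ (t, w) (1, 0) = vf φ (φ (t, w)) := by
  have h1 := hasDerivAt_slice hφ t w
  have h2 := hasDerivAt_slice hφ 0 (φ (t, w))
  have h3 : HasDerivAt (fun s : ℂ => φ (s, φ (t, w))) (fderiv ℂ φ (t, w) (1, 0)) 0 := by
    have h4 : HasDerivAt (fun s : ℂ => s + t) 1 0 := (hasDerivAt_id 0).add_const t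
    have h5 : HasDerivAt (fun s => φ (s, w)) (fderiv ℂ φ (t, w) (1, 0)) ((0 : ℂ) + t) := by
      rw [zero_add]; exact h1
    have h6 := h5.scomp (0 : ℂ) h4
    rw [one_smul] at h6
    have h7 : (fun s => φ (s, w)) ∘ (fun s : ℂ => s + t) = fun s => φ (s, φ (t, w)) := by
      funext s
      exact hφ.add s t w
    rw [h7] at h6
    exact h6
  exact h3.unique h2

theorem fderiv_vf {φ : ℂ × Z → Z} (hφ : Flow φ) {b : Z → ℂ} (hb : WeightOne φ b) (z : Z) :
    fderiv ℂ b z (vf φ z) = b z := by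
  have h1 : HasFDerivAt b (fderiv ℂ b (φ (0, z))) (φ (0, z)) := (hb.1 _).hasFDerivAt
  have h2 := h1.comp_hasDerivAt (0 : ℂ) (hasDerivAt_slice hφ 0 z)
  have h3 : (b ∘ fun s => φ (s, z)) = fun s => Complex.exp s * b z := by
    funext s
    exact hb.2 s z
  rw [h3, hφ.zero] at h2
  have h4 : HasDerivAt (fun s : ℂ => Complex.exp s * b z) (Complex.exp 0 * b z) 0 :=
    (Complex.hasDerivAt_exp 0).mul_const (b z)
  rw [Complex.exp_zero, one_mul] at h4
  exact h2.unique h4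

theorem hasFDerivAt_linEq {b d : Z → ℂ} (hb : Differentiable ℂ b) (hd : Differentiable ℂ d)
    (p : ℂ × Z) : HasFDerivAt (linEq b d)
      (p.1 • (fderiv ℂ b p.2).comp (ContinuousLinearMap.snd ℂ ℂ Z) +
        b p.2 • ContinuousLinearMap.fst ℂ ℂ Z +
        (fderiv ℂ d p.2).comp (ContinuousLinearMap.snd ℂ ℂ Z)) p := by
  have hb' : HasFDerivAt (fun p : ℂ × Z => b p.2)
      ((fderiv ℂ b p.2).comp (ContinuousLinearMap.snd ℂ ℂ Z)) p :=
    ((hb p.2).hasFDerivAt).comp p hasFDerivAt_snd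
  have hd' : HasFDerivAt (fun p : ℂ × Z => d p.2)
      ((fderiv ℂ d p.2).comp (ContinuousLinearMap.snd ℂ ℂ Z)) p :=
    ((hd p.2).hasFDerivAt).comp p hasFDerivAt_snd
  exact ((hasFDerivAt_fst.mul hb').add hd').sub_const 1

theorem fderiv_linEq {b d : Z → ℂ} (hb : Differentiable ℂ b) (hd : Differentiable ℂ d)
    (p v : ℂ × Z) : fderiv ℂ (linEq b d) p v =
      p.1 * fderiv ℂ b p.2 v.2 + b p.2 * v.1 + fderiv ℂ d p.2 v.2 := by
  rw [(hasFDerivAt_linEq hb hd p).fderiv]
  simp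

theorem core_smooth {φ : ℂ × Z → Z} (hφ : Flow φ) {b d : Z → ℂ} (hb : WeightOne φ b)
    (hd : WeightOne φ d) : SmoothZeros (linEq b d) := by
  refine ⟨fun p => (hasFDerivAt_linEq hb.1 hd.1 p).differentiableAt, ?_⟩
  intro p hp h0
  have h1 := fderiv_linEq hb.1 hd.1 p (1, 0)
  have h2 := fderiv_linEq hb.1 hd.1 p (0, vf φ p.2)
  rw [h0] at h1 h2
  simp only [ContinuousLinearMap.zero_apply, map_zero, mul_zero, mul_one, zero_add,
    add_zero] at h1 h2
  rw [fderiv_vf hφ hb, fderiv_vf hφ hd] at h2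
  unfold linEq at hp
  rw [← h2] at hp
  simp at hp

theorem core_immersion {φ : ℂ × Z → Z} (hφ : Flow φ) {b d : Z → ℂ} (hb : WeightOne φ b)
    (hd : WeightOne φ d) : ∃ F : ℂ × Z → Z, ImmersesZeros (linEq b d) F := by
  obtain ⟨h, h', hh, hspec⟩ := exists_h
  have hbd : Differentiable ℂ b := hb.1
  have hdd : Differentiable ℂ d := hd.1
  have hhd : Differentiable ℂ h := fun s => (hh s).differentiableAt
  set τ : ℂ × Z → ℂ := fun p => h (b p.2) - p.1 with hτ
  set F : ℂ × Z → Z := fun p => φ (τ p, p.2) with hF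
  have hτd : Differentiable ℂ τ :=
    (hhd.comp (hbd.comp differentiable_snd)).sub differentiable_fst
  have hφd : Differentiable ℂ φ := hφ.entire
  have hFd : Differentiable ℂ F := hφd.comp (hτd.prodMk differentiable_snd)
  have hback : ∀ q : ℂ × Z, φ (-(τ q), F q) = q.2 := by
    intro q
    simp only [hF]
    rw [← hφ.add, neg_add_cancel, hφ.zero]
  refine ⟨F, hFd, ?_⟩
  intro p hp v hv hFv
  -- the second component
  have key : v.2 = -(fderiv ℂ τ p v • vf φ p.2) := by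
    have h1 : HasFDerivAt (fun q : ℂ × Z => φ (-(τ q), F q))
        ((fderiv ℂ φ (-(τ p), F p)).comp ((-(fderiv ℂ τ p)).prod (fderiv ℂ F p))) p :=
      HasFDerivAt.comp p (hφd (-(τ p), F p)).hasFDerivAt
        (((hτd p).hasFDerivAt.neg).prodMk (hFd p).hasFDerivAt)
    have h2 : (fun q : ℂ × Z => φ (-(τ q), F q)) = Prod.snd := by
      funext q
      exact hback q
    rw [h2] at h1
    have h3 := congrArg (fun A : ℂ × Z →L[ℂ] Z => A v) (hasFDerivAt_snd.unique h1)
    simp only [ContinuousLinearMap.coe_snd', ContinuousLinearMap.comp_apply,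
      ContinuousLinearMap.prod_apply, ContinuousLinearMap.neg_apply] at h3
    rw [hFv] at h3
    have h4 : ((-(fderiv ℂ τ p v), (0 : Z)) : ℂ × Z) = (-(fderiv ℂ τ p v)) • ((1 : ℂ), (0 : Z)) := by
      ext <;> simp
    rw [h4, map_smul, fderiv_slice hφ, hback] at h3
    rw [h3, neg_smul]
  set σ : ℂ := fderiv ℂ τ p v with hσ
  have hbv : fderiv ℂ b p.2 v.2 = -(σ * b p.2) := by
    rw [key, map_neg, map_smul, fderiv_vf hφ hb, smul_eq_mul]
  have hdv : fderiv ℂ d p.2 v.2 = -(σ * d p.2) := by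
    rw [key, map_neg, map_smul, fderiv_vf hφ hd, smul_eq_mul]
  have hτv : σ = h' (b p.2) * fderiv ℂ b p.2 v.2 - v.1 := by
    have hb' : HasFDerivAt (fun p : ℂ × Z => b p.2)
        ((fderiv ℂ b p.2).comp (ContinuousLinearMap.snd ℂ ℂ Z)) p :=
      ((hbd p.2).hasFDerivAt).comp p hasFDerivAt_snd
    have h1 : HasFDerivAt τ (h' (b p.2) • (fderiv ℂ b p.2).comp (ContinuousLinearMap.snd ℂ ℂ Z) -
        ContinuousLinearMap.fst ℂ ℂ Z) p :=
      ((hh (b p.2)).comp_hasFDerivAt p hb').sub hasFDerivAt_fst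
    rw [hσ, h1.fderiv]
    simp
  rw [fderiv_linEq hbd hdd, hbv, hdv] at hv
  unfold linEq at hp
  have h1 : σ = b p.2 * v.1 := by linear_combination (-1 : ℂ) * hv - σ * hp
  rw [hbv, h1] at hτv
  have h2 : Complex.exp (b p.2) * v.1 = 0 := by
    linear_combination hτv - v.1 * hspec (b p.2)
  have h3 : v.1 = 0 := (mul_eq_zero.mp h2).resolve_left (Complex.exp_ne_zero _)
  have h4 : v.2 = 0 := by rw [key, h1, h3, mul_zero, zero_smul, neg_zero]
  exact Prod.ext h3 h4

/-! ### Change of coordinates -/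

theorem smooth_comp {V W : Type} [NormedAddCommGroup V] [NormedSpace ℂ V] [NormedAddCommGroup W]
    [NormedSpace ℂ W] (L : V ≃L[ℂ] W) {f : W → ℂ} (hf : SmoothZeros f) :
    SmoothZeros (fun v => f (L v)) := by
  refine ⟨Differentiable.comp hf.1 L.differentiable, ?_⟩
  intro p hp h0
  apply hf.2 (L p) hp
  have h1 : HasFDerivAt (fun v => f (L v)) ((fderiv ℂ f (L p)).comp (L : V →L[ℂ] W)) p :=
    HasFDerivAt.comp p (hf.1 (L p)).hasFDerivAt L.hasFDerivAt
  rw [h1.fderiv] at h0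
  ext w
  have h2 := congrArg (fun A : V →L[ℂ] ℂ => A (L.symm w)) h0
  simpa using h2

theorem immerses_comp {V W U : Type} [NormedAddCommGroup V] [NormedSpace ℂ V]
    [NormedAddCommGroup W] [NormedSpace ℂ W] [NormedAddCommGroup U] [NormedSpace ℂ U]
    (L : V ≃L[ℂ] W) {f : W → ℂ} (hf : Differentiable ℂ f) {F : W → U} (hF : ImmersesZeros f F) :
    ImmersesZeros (fun v => f (L v)) (fun v => F (L v)) := by
  refine ⟨Differentiable.comp hF.1 L.differentiable, ?_⟩
  intro p hp v hv hFv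
  have h1 : HasFDerivAt (fun v => f (L v)) ((fderiv ℂ f (L p)).comp (L : V →L[ℂ] W)) p :=
    HasFDerivAt.comp p (hf (L p)).hasFDerivAt L.hasFDerivAt
  have h2 : HasFDerivAt (fun v => F (L v)) ((fderiv ℂ F (L p)).comp (L : V →L[ℂ] W)) p :=
    HasFDerivAt.comp p (hF.1 (L p)).hasFDerivAt L.hasFDerivAt
  rw [h1.fderiv] at hv
  rw [h2.fderiv] at hFv
  have h3 := hF.2 (L p) hp (L v) hv hFv
  simpa using h3

end

end Pool.Agent.MP_fcd94d_an.SL
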