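import Mathlib
import Pool.Agent.Lib.MP_fcd94d_an_SL.Main

/-!
# MP_fcd94d_an: the special linear group
-/

namespace Pool.Agent.MP_fcd94d_an.SL

open Pool.Agent.MP_fcd94d_an.KR

/-- all positions of a matrix except the first one -/
abbrev Pos (k : ℕ) : Type := {q : Fin (k + 2) × Fin (k + 2) // q ≠ (0, 0)}

theorem card_Pos (k : ℕ) : Fintype.card (Pos k) = (k + 2) ^ 2 - 1 := by
  rw [Fintype.card_subtype_compl, Fintype.card_prod, Fintype.card_fin, Fintype.card_subtype_eq]
  ring_nf

section
variable {k N : ℕ} (e : Pos k ≃ Fin N)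

/-- the matrix with entries `z` and first entry `0` -/
def mat (z : Fin N → ℂ) : Matrix (Fin (k + 2)) (Fin (k + 2)) ℂ := fun i j =>
  if h : (i, j) ≠ (0, 0) then z (e ⟨(i, j), h⟩) else 0

/-- scaling of the second row -/
noncomputable def scal (p : ℂ × (Fin N → ℂ)) : Fin N → ℂ := fun l =>
  if (e.symm l).1.1 = 1 then Complex.exp p.1 * p.2 l else p.2 l

/-- the first cofactor -/
noncomputable def cof (z : Fin N → ℂ) : ℂ :=
  ((mat e z).updateRow 0 (Pi.single 0 1)).det

theorem mat_scal (t : ℂ) (z : Fin N → ℂ) :
    mat e (scal e (t, z)) = (mat e z).updateRow 1 (Complex.exp t • mat e z 1) := by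
  ext i j
  by_cases hi : i = 1
  · subst hi
    rw [Matrix.updateRow_self]
    have h : ((1 : Fin (k + 2)), j) ≠ (0, 0) := by
      intro h
      have := congrArg Prod.fst h
      simp at this
    simp [mat, scal, h]
  · rw [Matrix.updateRow_ne hi]
    by_cases h : (i, j) = (0, 0)
    · simp [mat, h]
    · simp [mat, scal, h, hi]

theorem flow_scal : Flow (scal e) := by
  refine ⟨?_, ?_, ?_⟩
  · unfold Entire
    rw [differentiable_pi]
    intro l
    unfold scal
    split_ifs
    · fun_prop
    · fun_prop
  · intro z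
    funext l
    simp [scal]
  · intro s t z
    funext l
    by_cases hl : (e.symm l).1.1 = 1
    · simp only [scal, hl, if_true]
      rw [Complex.exp_add]
      ring
    · simp only [scal, hl, if_false]

theorem differentiable_mat (i j : Fin (k + 2)) :
    Differentiable ℂ (fun z : Fin N → ℂ => mat e z i j) := by
  unfold mat
  split_ifs
  · fun_prop
  · fun_prop

theorem differentiable_det {M : (Fin N → ℂ) → Matrix (Fin (k + 2)) (Fin (k + 2)) ℂ}
    (hM : ∀ i j, Differentiable ℂ (fun z => M z i j)) : Differentiable ℂ (fun z => (M z).det) := by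
  simp only [Matrix.det_apply']
  refine Differentiable.fun_sum fun σ _ => Differentiable.const_mul ?_ _
  intro z
  exact (HasFDerivAt.finsetProd (u := Finset.univ)
    (g := fun (i : Fin (k + 2)) (z : Fin N → ℂ) => M z (σ i) i)
    (fun i _ => (hM (σ i) i z).hasFDerivAt)).differentiableAt

theorem weight_det : WeightOne (scal e) (fun z => (mat e z).det) := by
  refine ⟨differentiable_det fun i j => differentiable_mat e i j, ?_⟩
  intro t z
  show (mat e (scal e (t, z))).det = Complex.exp t * (mat e z).det
  rw [mat_scal, Matrix.det_updateRow_smul, Matrix.updateRow_eq_self]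

theorem weight_cof : WeightOne (scal e) (cof e) := by
  refine ⟨?_, ?_⟩
  · refine differentiable_det fun i j => ?_
    by_cases hi : i = 0
    · subst hi
      simp only [Matrix.updateRow_self]
      fun_prop
    · simp only [Matrix.updateRow_ne hi]
      exact differentiable_mat e i j
  · intro t z
    unfold cof
    have h10 : (1 : Fin (k + 2)) ≠ 0 := by
      intro h
      simp at h
    rw [mat_scal, Matrix.updateRow_comm _ h10, Matrix.det_updateRow_smul]
    congr 2
    conv_rhs => rw [← Matrix.updateRow_eq_self ((mat e z).updateRow 0 (Pi.single 0 1)) 1]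
    rw [Matrix.updateRow_ne h10]

/-- the coordinates: the first entry and the others -/
noncomputable def coord : (Fin (k + 2) → Fin (k + 2) → ℂ) ≃L[ℂ] ℂ × (Fin N → ℂ) :=
  LinearEquiv.toContinuousLinearEquiv
    { toFun := fun w => (w 0 0, fun l => w (e.symm l).1.1 (e.symm l).1.2)
      invFun := fun p i j => if h : (i, j) ≠ (0, 0) then p.2 (e ⟨(i, j), h⟩) else p.1
      map_add' := fun _ _ => rfl
      map_smul' := fun _ _ => rfl
      left_inv := by
        intro w
        funext i j
        by_cases h : (i, j) = (0, 0)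
        · obtain ⟨rfl, rfl⟩ := Prod.mk.inj h
          simp
        · simp [h]
      right_inv := by
        rintro ⟨x, z⟩
        ext l
        · simp
        · simp [(e.symm l).2] }

theorem coord_apply (w : Fin (k + 2) → Fin (k + 2) → ℂ) :
    coord e w = (w 0 0, fun l => w (e.symm l).1.1 (e.symm l).1.2) := rfl

theorem det_coord (w : Fin (k + 2) → Fin (k + 2) → ℂ) :
    detEq (k + 2) w = linEq (cof e) (fun z => (mat e z).det) (coord e w) := by
  unfold detEq linEq cof
  rw [coord_apply]
  simp only
  set A := mat e (fun l => w (e.symm l).1.1 (e.symm l).1.2) with hA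
  have h1 : Matrix.of w = A.updateRow 0 (A 0 + w 0 0 • Pi.single 0 1) := by
    ext i j
    by_cases hi : i = 0
    · subst hi
      rw [Matrix.updateRow_self]
      by_cases hj : j = 0
      · subst hj
        simp [hA, mat]
      · have h : ((0 : Fin (k + 2)), j) ≠ (0, 0) := by
          intro h
          exact hj (congrArg Prod.snd h)
        simp [hA, mat, hj]
    · rw [Matrix.updateRow_ne hi]
      have h : (i, j) ≠ (0, 0) := by
        intro h
        exact hi (congrArg Prod.fst h)
      simp [hA, mat, hi]
  rw [h1, Matrix.det_updateRow_add, Matrix.det_updateRow_smul, Matrix.updateRow_eq_self]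
  ring

end

theorem det_smooth (m : ℕ) (hm : 2 ≤ m) : SmoothZeros (detEq m) := by
  obtain ⟨k, rfl⟩ : ∃ k, m = k + 2 := ⟨m - 2, by omega⟩
  set e : Pos k ≃ Fin ((k + 2) ^ 2 - 1) := Fintype.equivFinOfCardEq (card_Pos k)
  have h := smooth_comp (coord e) (core_smooth (flow_scal e) (weight_cof e) (weight_det e))
  have h2 : (fun w => linEq (cof e) (fun z => (mat e z).det) (coord e w)) = detEq (k + 2) := by
    funext w
    exact (det_coord e w).symm
  rwa [h2] at h

theorem det_immersion (m : ℕ) (hm : 2 ≤ m) :
    ∃ F : (Fin m → Fin m → ℂ) → (Fin (m ^ 2 - 1) → ℂ), ImmersesZeros (detEq m) F := by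
  obtain ⟨k, rfl⟩ : ∃ k, m = k + 2 := ⟨m - 2, by omega⟩
  set e : Pos k ≃ Fin ((k + 2) ^ 2 - 1) := Fintype.equivFinOfCardEq (card_Pos k)
  obtain ⟨F, hF⟩ := core_immersion (flow_scal e) (weight_cof e) (weight_det e)
  have h := immerses_comp (coord e) (core_smooth (flow_scal e) (weight_cof e) (weight_det e)).1 hF
  have h2 : (fun w => linEq (cof e) (fun z => (mat e z).det) (coord e w)) = detEq (k + 2) := by
    funext w
    exact (det_coord e w).symm
  rw [h2] at h
  exact ⟨_, h⟩

end Pool.Agent.MP_fcd94d_an.SL
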